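import Mathlib

set_option exponentiation.threshold 10000

namespace Pool.Agent.Results.MP_ca7dc8_pr.NotMonotone

open Finset

/-- The unit step of `ℤ^d` coded by a coordinate and a sign. -/
def step {d : ℕ} (s : Fin d × Bool) : Fin d → ℤ :=
  fun a => if a = s.1 then (if s.2 then 1 else -1) else 0

/-- The position after `t` steps of a walk started at the origin with the given steps. -/
def pos {d t : ℕ} (w : Fin t → Fin d × Bool) : Fin d → ℤ := ∑ k, step (w k)

/-- The step configurations of `n` walkers for which at least one of them is alone on its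
site after `t` steps. -/
def lonelySet (n d t : ℕ) : Finset (Fin n → Fin t → Fin d × Bool) :=
  {w | ∃ i, ∀ j, j ≠ i → pos (w j) ≠ pos (w i)}

/-- `p n d t`: the probability that at least one of `n` independent simple random walks on
`ℤ^d` is lonely after `t` steps. The `n t` steps are independent and uniform on the `2 d`
unit vectors, so this is the proportion of step configurations in `lonelySet n d t`. -/
noncomputable def p (n d t : ℕ) : ℝ := (lonelySet n d t).card / ((2 * d : ℕ) : ℝ) ^ (n * t)

section counting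

variable {α : Type*} [Fintype α] [DecidableEq α] {n : ℕ}

/-- exactly one index falls in `S` -/
def exOne (n : ℕ) (S : Finset α) : Finset (Fin n → α) :=
  {f | ∃ i, f i ∈ S ∧ ∀ j, j ≠ i → f j ∉ S}

def box (S : Finset α) (i : Fin n) : Finset (Fin n → α) :=
  Fintype.piFinset (fun j => if j = i then S else Sᶜ)

lemma mem_box {S : Finset α} {i : Fin n} {f : Fin n → α} :
    f ∈ box S i ↔ f i ∈ S ∧ ∀ j, j ≠ i → f j ∉ S := by
  unfold box
  rw [Fintype.mem_piFinset]
  constructor
  · intro h
    refine ⟨by simpa using h i, fun j hj => ?_⟩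
    have := h j
    simpa [hj] using this
  · rintro ⟨h1, h2⟩ j
    by_cases hj : j = i
    · subst hj; simpa using h1
    · simpa [hj] using h2 j hj

lemma card_box (S : Finset α) (i : Fin n) :
    (box S i).card = S.card * (Fintype.card α - S.card) ^ (n - 1) := by
  unfold box
  rw [Fintype.card_piFinset]
  rw [← Finset.mul_prod_erase _ _ (Finset.mem_univ i)]
  rw [if_pos rfl]
  congr 1
  rw [Finset.prod_congr rfl (g := fun _ => Fintype.card α - S.card)]
  · rw [Finset.prod_const, Finset.card_erase_of_mem (Finset.mem_univ i), Finset.card_univ,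
      Fintype.card_fin]
  · intro j hj
    rw [if_neg (Finset.ne_of_mem_erase hj), Finset.card_compl]

lemma card_exOne (S : Finset α) :
    (exOne n S).card = n * (S.card * (Fintype.card α - S.card) ^ (n - 1)) := by
  have : exOne n S = Finset.univ.biUnion (fun i : Fin n => box S i) := by
    ext f
    simp [exOne, mem_box]
  rw [this, Finset.card_biUnion]
  · simp [card_box]
  · intro i _ j _ hij
    rw [Function.onFun, Finset.disjoint_left]
    intro f h1 h2
    rw [mem_box] at h1 h2
    exact h2.2 i hij h1.1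

def box2 (a b : α) (ij : Fin n × Fin n) : Finset (Fin n → α) :=
  Fintype.piFinset (fun k => if k = ij.1 then {a} else if k = ij.2 then {b} else {a, b}ᶜ)

lemma mem_box2 {a b : α} {ij : Fin n × Fin n} (hij : ij.1 ≠ ij.2) {f : Fin n → α} :
    f ∈ box2 a b ij ↔ f ij.1 = a ∧ f ij.2 = b ∧
      ∀ k, k ≠ ij.1 → k ≠ ij.2 → f k ≠ a ∧ f k ≠ b := by
  unfold box2
  rw [Fintype.mem_piFinset]
  constructor
  · intro h
    refine ⟨by simpa using h ij.1, ?_, fun k h1 h2 => ?_⟩
    · have := h ij.2
      rw [if_neg hij.symm, if_pos rfl] at this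
      simpa using this
    · have := h k
      rw [if_neg h1, if_neg h2] at this
      simpa using this
  · rintro ⟨h1, h2, h3⟩ k
    by_cases hk : k = ij.1
    · rw [if_pos hk]; subst hk; simpa using h1
    · rw [if_neg hk]
      by_cases hk2 : k = ij.2
      · rw [if_pos hk2]; subst hk2; simpa using h2
      · rw [if_neg hk2]; simpa using h3 k hk hk2

lemma card_box2 {a b : α} (hab : a ≠ b) {ij : Fin n × Fin n} (hij : ij.1 ≠ ij.2) :
    (box2 a b ij).card = (Fintype.card α - 2) ^ (n - 2) := by
  unfold box2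
  rw [Fintype.card_piFinset]
  rw [← Finset.mul_prod_erase _ _ (Finset.mem_univ ij.1)]
  rw [← Finset.mul_prod_erase _ _
    (Finset.mem_erase.mpr ⟨hij.symm, Finset.mem_univ ij.2⟩)]
  rw [if_pos rfl, if_neg hij.symm, if_pos rfl]
  rw [Finset.prod_congr rfl (g := fun _ => Fintype.card α - 2)]
  · rw [Finset.prod_const, Finset.card_erase_of_mem
      (Finset.mem_erase.mpr ⟨hij.symm, Finset.mem_univ ij.2⟩),
      Finset.card_erase_of_mem (Finset.mem_univ ij.1), Finset.card_univ, Fintype.card_fin]
    simp [Nat.sub_sub]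
  · intro j hj
    have h2 := Finset.ne_of_mem_erase hj
    have h1 := Finset.ne_of_mem_erase (Finset.mem_of_mem_erase hj)
    rw [if_neg h1, if_neg h2, Finset.card_compl, Finset.card_pair hab]

lemma card_inter {a b : α} (hab : a ≠ b) :
    (exOne n {a} ∩ exOne n {b}).card = (n * n - n) * (Fintype.card α - 2) ^ (n - 2) := by
  have : exOne n {a} ∩ exOne n {b} =
      (Finset.univ : Finset (Fin n)).offDiag.biUnion (fun ij => box2 a b ij) := by
    ext f
    simp only [exOne, Finset.mem_inter, Finset.mem_filter_univ, Finset.mem_singleton,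
      Finset.mem_biUnion, Finset.mem_offDiag, Finset.mem_univ, true_and]
    constructor
    · rintro ⟨⟨i, hi, hi'⟩, j, hj, hj'⟩
      have hij : i ≠ j := by
        rintro rfl
        exact hab (hi.symm.trans hj)
      refine ⟨(i, j), hij, (mem_box2 hij).mpr ⟨hi, hj, fun k h1 h2 => ⟨hi' k h1, hj' k h2⟩⟩⟩
    · rintro ⟨⟨i, j⟩, hij, h⟩
      obtain ⟨h1, h2, h3⟩ := (mem_box2 hij).mp h
      refine ⟨⟨i, h1, fun k hk => ?_⟩, j, h2, fun k hk => ?_⟩
      · by_cases hkj : k = j
        · rw [hkj]; simp only at h2; rw [h2]; exact hab.symm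
        · exact (h3 k hk hkj).1
      · by_cases hki : k = i
        · rw [hki]; simp only at h1; rw [h1]; exact hab
        · exact (h3 k hki hk).2
  rw [this, Finset.card_biUnion]
  · rw [Finset.sum_congr rfl (g := fun _ => (Fintype.card α - 2) ^ (n - 2))]
    · rw [Finset.sum_const, Finset.offDiag_card, Finset.card_univ, Fintype.card_fin, smul_eq_mul]
    · intro ij hij
      exact card_box2 hab (by simpa using hij)
  · intro ij hij kl hkl hne
    rw [Function.onFun, Finset.disjoint_left]
    have hij' : ij.1 ≠ ij.2 := by simpa using hij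
    have hkl' : kl.1 ≠ kl.2 := by simpa using hkl
    intro f h1 h2
    obtain ⟨a1, a2, a3⟩ := (mem_box2 hij').mp h1
    obtain ⟨b1, b2, b3⟩ := (mem_box2 hkl').mp h2
    apply hne
    have e1 : ij.1 = kl.1 := by
      by_contra hc
      by_cases h : ij.1 = kl.2
      · rw [h] at a1; exact hab (a1.symm.trans b2)
      · exact (b3 _ hc h).1 a1
    have e2 : ij.2 = kl.2 := by
      by_contra hc
      by_cases h : ij.2 = kl.1
      · rw [h] at a2; exact hab (b1.symm.trans a2)
      · exact (b3 _ h hc).2 a2
    exact Prod.ext e1 e2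

end counting

/-- number of up steps -/
def ups {t : ℕ} (w : Fin t → Fin 1 × Bool) : ℕ := (Finset.univ.filter (fun k => (w k).2 = true)).card

lemma pos_eq {t : ℕ} (w : Fin t → Fin 1 × Bool) (a : Fin 1) :
    pos w a = 2 * (ups w : ℤ) - t := by
  unfold pos ups
  rw [Finset.sum_apply]
  have : ∀ k, step (w k) a = 2 * (if (w k).2 = true then 1 else 0) - 1 := by
    intro k
    unfold step
    rw [if_pos (Subsingleton.elim _ _)]
    split_ifs <;> norm_num
  rw [Finset.sum_congr rfl (fun k _ => this k), Finset.sum_sub_distrib, ← Finset.mul_sum]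
  simp [Finset.sum_boole]

lemma pos_eq_iff {t : ℕ} (w w' : Fin t → Fin 1 × Bool) : pos w = pos w' ↔ ups w = ups w' := by
  constructor
  · intro h
    have := congrFun h 0
    rw [pos_eq, pos_eq] at this
    omega
  · intro h
    funext a
    rw [pos_eq, pos_eq, h]

/-- the walks with `k` up steps -/
def level (t k : ℕ) : Finset (Fin t → Fin 1 × Bool) := {w | ups w = k}

lemma mem_level {t k : ℕ} {w : Fin t → Fin 1 × Bool} : w ∈ level t k ↔ ups w = k := by
  simp [level]

lemma ups_le {t : ℕ} (w : Fin t → Fin 1 × Bool) : ups w ≤ t := by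
  unfold ups
  refine (Finset.card_filter_le _ _).trans ?_
  simp

lemma card_level (t k : ℕ) : (level t k).card = t.choose k := by
  have h : (level t k).card = ((Finset.univ : Finset (Fin t)).powersetCard k).card := by
    apply Finset.card_bij (fun w _ => Finset.univ.filter (fun i => (w i).2 = true))
    · intro w hw
      rw [Finset.mem_powersetCard]
      refine ⟨Finset.subset_univ _, ?_⟩
      exact mem_level.mp hw
    · intro w _ w' _ h
      funext i
      have := Finset.ext_iff.mp h i
      simp only [Finset.mem_filter, Finset.mem_univ, true_and] at this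
      refine Prod.ext (Subsingleton.elim _ _) ?_
      exact Bool.eq_iff_iff.mpr this
    · intro s hs
      rw [Finset.mem_powersetCard] at hs
      refine ⟨fun i => (0, decide (i ∈ s)), ?_, ?_⟩
      · rw [mem_level]
        simp [ups, hs.2]
      · ext i; simp
  rw [h, Finset.card_powersetCard, Finset.card_univ, Fintype.card_fin]

lemma lonelySet_eq (n t : ℕ) :
    lonelySet n 1 t = (Finset.range (t + 1)).biUnion (fun k => exOne n (level t k)) := by
  ext w
  simp only [lonelySet, Finset.mem_filter_univ, Finset.mem_biUnion, Finset.mem_range, exOne,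
    level, ne_eq, pos_eq_iff]
  constructor
  · rintro ⟨i, hi⟩
    exact ⟨ups (w i), Nat.lt_succ_of_le (ups_le _), i, rfl, hi⟩
  · rintro ⟨k, _, i, hi, h⟩
    exact ⟨i, fun j hj => by rw [hi]; exact h j hj⟩

lemma card_paths (t : ℕ) : Fintype.card (Fin t → Fin 1 × Bool) = 2 ^ t := by
  simp

lemma exists_single (t k : ℕ) (h : t.choose k = 1) : ∃ a, level t k = {a} := by
  rw [← Finset.card_eq_one, card_level, h]

/-- the size of the union of the two extreme events -/
lemma card_ends (n t : ℕ) (ht : t ≠ 0) :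
    (exOne n (level t 0) ∪ exOne n (level t t)).card + (n * n - n) * (2 ^ t - 2) ^ (n - 2) =
      2 * (n * (2 ^ t - 1) ^ (n - 1)) := by
  obtain ⟨a, ha⟩ := exists_single t 0 (by simp)
  obtain ⟨b, hb⟩ := exists_single t t (by simp)
  have hab : a ≠ b := by
    rintro rfl
    have h1 : a ∈ level t 0 := by rw [ha]; simp
    have h2 : a ∈ level t t := by rw [hb]; simp
    simp only [level, Finset.mem_filter_univ] at h1 h2
    exact ht (h2.symm.trans h1)
  have h1 := Finset.card_union_add_card_inter (exOne n (level t 0)) (exOne n (level t t))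
  rw [ha, hb] at h1 ⊢
  rw [card_inter hab, card_paths, card_exOne, card_exOne, card_paths] at h1
  rw [h1]
  simp
  ring

lemma card_lower (n t : ℕ) (ht : t ≠ 0) :
    2 * (n * (2 ^ t - 1) ^ (n - 1)) ≤
      (lonelySet n 1 t).card + (n * n - n) * (2 ^ t - 2) ^ (n - 2) := by
  rw [← card_ends n t ht]
  apply Nat.add_le_add_right
  apply Finset.card_le_card
  rw [lonelySet_eq]
  apply Finset.union_subset
  · exact Finset.subset_biUnion_of_mem (fun k => exOne n (level t k))
      (Finset.mem_range.mpr (by omega))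
  · exact Finset.subset_biUnion_of_mem (fun k => exOne n (level t k))
      (Finset.mem_range.mpr (by omega))

lemma card_upper (n t : ℕ) (ht : t ≠ 0) :
    (lonelySet n 1 t).card + (n * n - n) * (2 ^ t - 2) ^ (n - 2) ≤
      2 * (n * (2 ^ t - 1) ^ (n - 1)) +
      ∑ k ∈ Finset.Ico 1 t, n * (t.choose k * (2 ^ t - t.choose k) ^ (n - 1)) := by
  rw [← card_ends n t ht]
  have h : lonelySet n 1 t ⊆ (exOne n (level t 0) ∪ exOne n (level t t)) ∪
      (Finset.Ico 1 t).biUnion (fun k => exOne n (level t k)) := by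
    rw [lonelySet_eq]
    intro w hw
    simp only [Finset.mem_biUnion, Finset.mem_range] at hw
    obtain ⟨k, hk, hw⟩ := hw
    simp only [Finset.mem_union, Finset.mem_biUnion, Finset.mem_Ico]
    by_cases h0 : k = 0
    · subst h0; exact Or.inl (Or.inl hw)
    · by_cases h1 : k = t
      · subst h1; exact Or.inl (Or.inr hw)
      · exact Or.inr ⟨k, ⟨by omega, by omega⟩, hw⟩
  have h2 := Finset.card_le_card h
  have h3 := Finset.card_union_le (exOne n (level t 0) ∪ exOne n (level t t))
    ((Finset.Ico 1 t).biUnion (fun k => exOne n (level t k)))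
  have h4 : ((Finset.Ico 1 t).biUnion (fun k => exOne n (level t k))).card ≤
      ∑ k ∈ Finset.Ico 1 t, n * (t.choose k * (2 ^ t - t.choose k) ^ (n - 1)) := by
    refine Finset.card_biUnion_le.trans (le_of_eq ?_)
    apply Finset.sum_congr rfl
    intro k _
    rw [card_exOne, card_level, card_paths]
  omega

/-- The numerical inequality behind the counterexample. -/
lemma numeric :
    (2 * (540 * (2 ^ 10 - 1) ^ (540 - 1)) +
      ∑ k ∈ Finset.Ico 1 10, 540 * (Nat.choose 10 k * (2 ^ 10 - Nat.choose 10 k) ^ (540 - 1))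
      - (540 * 540 - 540) * (2 ^ 10 - 2) ^ (540 - 2)) <
    (2 * (540 * (2 ^ 9 - 1) ^ (540 - 1)) - (540 * 540 - 540) * (2 ^ 9 - 2) ^ (540 - 2)) *
      2 ^ 540 := by
  decide +kernel

/-- Monotonicity fails on `ℤ` for `540` walkers between the times `9` and `10`. -/
theorem explicit : p 540 1 10 < p 540 1 9 := by
  have h1 := card_lower 540 9 (by norm_num)
  have h2 := card_upper 540 10 (by norm_num)
  have h3 := numeric
  have h4 : (lonelySet 540 1 10).card < (lonelySet 540 1 9).card * 2 ^ 540 := by
    have a1 : (lonelySet 540 1 10).card ≤ 2 * (540 * (2 ^ 10 - 1) ^ (540 - 1)) +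
      ∑ k ∈ Finset.Ico 1 10, 540 * (Nat.choose 10 k * (2 ^ 10 - Nat.choose 10 k) ^ (540 - 1))
      - (540 * 540 - 540) * (2 ^ 10 - 2) ^ (540 - 2) := Nat.le_sub_of_add_le h2
    have a2 : 2 * (540 * (2 ^ 9 - 1) ^ (540 - 1)) - (540 * 540 - 540) * (2 ^ 9 - 2) ^ (540 - 2) ≤
      (lonelySet 540 1 9).card := Nat.sub_le_of_le_add h1
    exact lt_of_le_of_lt a1 (lt_of_lt_of_le h3 (Nat.mul_le_mul_right _ a2))
  unfold p
  rw [div_lt_div_iff₀ (by positivity) (by positivity)]
  have h5 : ((lonelySet 540 1 10).card : ℝ) < (lonelySet 540 1 9).card * 2 ^ 540 := by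
    exact_mod_cast h4
  have h6 : (((2 * 1 : ℕ) : ℝ)) ^ (540 * 10) = ((2 * 1 : ℕ) : ℝ) ^ (540 * 9) * 2 ^ 540 := by
    rw [show 540 * 10 = 540 * 9 + 540 from rfl, pow_add]
    norm_num
  rw [h6]
  have h7 : (0 : ℝ) < ((2 * 1 : ℕ) : ℝ) ^ (540 * 9) := by positivity
  calc ((lonelySet 540 1 10).card : ℝ) * ((2 * 1 : ℕ) : ℝ) ^ (540 * 9)
      < ((lonelySet 540 1 9).card * 2 ^ 540) * ((2 * 1 : ℕ) : ℝ) ^ (540 * 9) :=
        mul_lt_mul_of_pos_right h5 h7
    _ = _ := by ring

/-- The monotonicity statement is false. -/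
theorem result : ∃ d n t : ℕ, 1 ≤ d ∧ 1 ≤ n ∧ p n d (t + 1) < p n d t :=
  ⟨1, 540, 9, le_rfl, by norm_num, explicit⟩

end Pool.Agent.Results.MP_ca7dc8_pr.NotMonotone
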